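import Mathlib

set_option autoImplicit false

namespace Pool.Agent.H.MP_2001a4_an

open Filter Topology Finset Module

variable {D : Type} [NonUnitalCStarAlgebra D]

lemma unit0 [FiniteDimensional ℂ D] : ∃ u : D, ∀ x, u * x = x ∧ x * u = x := by
  let _ := CStarAlgebra.spectralOrder D
  have := CStarAlgebra.spectralOrderedRing D
  have h := CStarAlgebra.increasingApproximateUnit D
  have := h.neBot
  have := FiniteDimensional.proper ℂ D
  obtain ⟨u, -, hu⟩ := (isCompact_closedBall (0 : D) 1).ultrafilter_le_nhds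
    (Ultrafilter.of (CStarAlgebra.approximateUnit D))
    (le_principal_iff.2 (Ultrafilter.of_le _ h.closedBall_mem))
  exact ⟨u, fun x => ⟨tendsto_nhds_unique (Tendsto.mul_const x hu)
    ((h.tendsto_mul_right x).mono_left (Ultrafilter.of_le _)), tendsto_nhds_unique
    (Tendsto.const_mul x hu) ((h.tendsto_mul_left x).mono_left (Ultrafilter.of_le _))⟩⟩

lemma cl (T : NonUnitalStarSubalgebra ℂ D) [FiniteDimensional ℂ T] : IsClosed (T : Set D) :=
  have : FiniteDimensional ℂ T.toSubmodule := ‹_›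
  T.toSubmodule.closed_of_finiteDimensional

lemma unit (T : NonUnitalStarSubalgebra ℂ D) [FiniteDimensional ℂ T] :
    ∃ u ∈ T, star u = u ∧ ∀ x ∈ T, u * x = x ∧ x * u = x := by
  have := cl T
  obtain ⟨u, hu⟩ := unit0 (D := T)
  have h : ∀ x ∈ T, u.1 * x = x ∧ x * u.1 = x := fun x hx =>
    ⟨congrArg Subtype.val (hu ⟨x, hx⟩).1, congrArg Subtype.val (hu ⟨x, hx⟩).2⟩
  refine ⟨u, u.2, ?_, h⟩
  have := congrArg star (h _ (star_mem u.2)).1
  rw [star_mul, star_star, (h _ (star_mem u.2)).1] at this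
  exact this

/-- minimal projections -/
def Mn (s : D) : Prop := s ≠ 0 ∧ star s = s ∧ s * s = s ∧ ∀ x, ∃ c : ℂ, s * x * s = c • s

/-- the hereditary subalgebra -/
def her (a : D) : NonUnitalStarSubalgebra ℂ D where
  carrier := {z | ∃ x, z = a * x * star a}
  add_mem' := by rintro _ _ ⟨x, rfl⟩ ⟨y, rfl⟩; exact ⟨x + y, by noncomm_ring⟩
  zero_mem' := ⟨0, by simp⟩
  mul_mem' := by rintro _ _ ⟨x, rfl⟩ ⟨y, rfl⟩; exact ⟨x * star a * a * y, by noncomm_ring⟩
  smul_mem' := by rintro c _ ⟨x, rfl⟩; exact ⟨c • x, by simp only [mul_smul_comm, smul_mul_assoc]⟩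
  star_mem' := by rintro _ ⟨x, rfl⟩; exact ⟨star x, by simp [mul_assoc]⟩

lemma supp [FiniteDimensional ℂ D] {a : D} (ha : a ≠ 0) :
    ∃ x, a * x * star a ≠ 0 ∧ star (a * x * star a) = a * x * star a ∧
      a * x * star a * (a * x * star a) = a * x * star a := by
  have : FiniteDimensional ℂ (her a) := inferInstanceAs (FiniteDimensional ℂ (her a).toSubmodule)
  obtain ⟨_, ⟨x, rfl⟩, h1, h2⟩ := unit (her a)
  refine ⟨x, fun h => ha ?_, h1, (h2 _ ⟨x, rfl⟩).1⟩
  have := (h2 _ ⟨star a * a, rfl⟩).1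
  rw [h, zero_mul] at this
  rw [← CStarRing.mul_star_self_eq_zero_iff, ← CStarRing.mul_star_self_eq_zero_iff, this]
  simp [mul_assoc]

lemma exmin [FiniteDimensional ℂ D] {p : D} (h0 : p ≠ 0) (hp : star p = p) (pp : p * p = p) :
    ∃ s, Mn s ∧ p * s = s := by
  let R : D → Submodule ℂ D := fun s => LinearMap.range (LinearMap.mulLeftRight ℂ (s, s))
  obtain ⟨s, ⟨s0, s1, s2, s3⟩, hs⟩ := (measure fun s => finrank ℂ (R s)).wf.has_min
    {s | s ≠ 0 ∧ star s = s ∧ s * s = s ∧ p * s = s} ⟨p, h0, hp, pp, pp⟩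
  have m1 : ∀ a ∈ R s, s * a = a ∧ a * s = a := by
    rintro _ ⟨x, rfl⟩
    exact ⟨by simp [← mul_assoc, s2], by simp [mul_assoc, s2]⟩
  have m2 : s ∈ R s := ⟨s, by simp [s2]⟩
  have inv : ∀ a ∈ R s, a ≠ 0 → ∃ y, a * y = s := fun a ha a0 => by
    obtain ⟨x, u0, u1, u2⟩ := supp a0
    set u := a * x * star a with hu
    have e1 : s * u = u := by rw [hu, ← mul_assoc, ← mul_assoc, (m1 a ha).1]
    have e2 : u * s = u := by rw [← u1, ← s1, ← star_mul, e1]
    have le : R u ≤ R s := by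
      rintro _ ⟨y, rfl⟩
      exact ⟨u * y * u, by simp only [LinearMap.mulLeftRight_apply, ← mul_assoc, e1]
                           rw [mul_assoc _ u, e2]⟩
    obtain ⟨y, hy⟩ : s ∈ R u := Submodule.eq_of_le_of_finrank_le le (not_lt.1
      (hs u ⟨u0, u1, u2, by rw [← e1, ← mul_assoc, s3]⟩)) ▸ m2
    refine ⟨x * star a, ?_⟩
    rw [← mul_assoc, ← hu, ← e2, ← hy]
    simp [← mul_assoc, u2]
  refine ⟨s, ⟨s0, s1, s2, fun x => ?_⟩, s3⟩
  have ha : s * x * s ∈ R s := ⟨x, rfl⟩
  have : Nontrivial (R s) := ⟨⟨s, m2⟩, 0, fun h => s0 (congrArg Subtype.val h)⟩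
  obtain ⟨c, hc⟩ := End.exists_eigenvalue ((LinearMap.mulLeft ℂ (s * x * s)).restrict
    (p := R s) (q := R s) fun y hy => ⟨x * s * y, by
      simp only [LinearMap.mulLeftRight_apply, LinearMap.mulLeft_apply, mul_assoc, (m1 y hy).2]⟩)
  obtain ⟨y, hy⟩ := hc.exists_hasEigenvector
  obtain ⟨z, hz⟩ := inv y y.2 fun h => hy.2 (Subtype.ext h)
  have e : s * x * s * y = c • y.1 := congrArg Subtype.val hy.apply_eq_smul
  exact ⟨c, by rw [← (m1 _ ha).2, ← hz, ← mul_assoc, hz, e, smul_mul_assoc, hz]⟩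

lemma Mn.pos {s : D} (hs : Mn s) (x : D) : ∃ c : ℝ, 0 ≤ c ∧ s * (star x * x) * s = (c : ℂ) • s := by
  let _ := CStarAlgebra.spectralOrder D
  have := CStarAlgebra.spectralOrderedRing D
  obtain ⟨c, hc⟩ := hs.2.2.2 (star x * x)
  have h0 : 0 ≤ c • s := by
    rw [← hc]; simpa [mul_assoc, hs.2.1] using star_mul_self_nonneg (x * s)
  have h1 : star c = c := smul_left_injective ℂ hs.1 (by
    simpa [hs.2.1] using (IsSelfAdjoint.of_nonneg h0).star_eq)
  obtain ⟨r, rfl⟩ : ∃ r : ℝ, c = r := ⟨c.re, (Complex.conj_eq_iff_re.1 h1).symm⟩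
  refine ⟨r, not_lt.1 fun hr => hs.1 ?_, hc⟩
  have h2 : 0 ≤ s := by simpa [hs.2.1, hs.2.2.1] using star_mul_self_nonneg s
  rw [Complex.coe_smul] at h0
  exact (smul_eq_zero.1 (le_antisymm (smul_nonpos_of_nonpos_of_nonneg hr.le h2) h0)).resolve_left
    hr.ne

lemma Mn.copy {s h x : D} (hs : Mn s) (hh : h * h = h) (hx : h * x * s ≠ 0) :
    ∃ w, h * w = w ∧ star w * w = s := by
  obtain ⟨c, c0, hc⟩ := hs.pos (h * x)
  have e : star (h * x * s) * (h * x * s) = (c : ℂ) • s := by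
    rw [← hc, star_mul, hs.2.1]; simp only [mul_assoc]
  have c1 : c ≠ 0 := fun h => hx (by
    rw [← CStarRing.star_mul_self_eq_zero_iff, e, h]; simp)
  refine ⟨(√c)⁻¹ • (h * x * s), by rw [mul_smul_comm, ← mul_assoc, ← mul_assoc, hh], ?_⟩
  rw [star_smul, smul_mul_smul_comm, e, star_trivial, Complex.coe_smul, smul_smul, ← mul_inv,
    Real.mul_self_sqrt c0, inv_mul_cancel₀ c1, one_smul]

/-- matrix units -/
def MU {ι : Type} [DecidableEq ι] (E : ι → ι → D) : Prop :=
  (∀ i j, star (E i j) = E j i) ∧ ∀ i j k l, E i j * E k l = if j = k then E i l else 0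

theorem greedy [FiniteDimensional ℂ D] {ι : Type} [Fintype ι] [DecidableEq ι] [Nonempty ι] (n : ℕ) :
    ∀ (d : D) (h : ι → D), finrank ℂ (LinearMap.range (LinearMap.mulLeft ℂ d)) < n →
      star d = d → d * d = d → (∀ i, star (h i) = h i) → (∀ i, d * h i = 0) →
      (∀ i j, h i * h j = if i = j then h i else 0) →
      (∀ i z, d * z = z → z ≠ 0 → ∃ y, h i * y * z ≠ 0) →
      ∃ E : ι → ι → D, MU E ∧ (∑ i, E i i) * d = d ∧
        ∀ e, e * d = 0 → (∀ k, e * h k = 0) → ∀ i j, e * E i j = 0 := by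
  induction n with
  | zero => exact fun _ _ h => absurd h (Nat.not_lt_zero _)
  | succ n ih =>
  intro d h hn d1 d2 h1 h2 h3 h4
  rcases eq_or_ne d 0 with rfl | d0
  · exact ⟨0, ⟨by simp, by simp⟩, by simp, by simp⟩
  obtain ⟨s, hs, ds⟩ := exmin d0 d1 d2
  have h2' : ∀ i, h i * d = 0 := fun i => by rw [← h1, ← d1, ← star_mul, h2, star_zero]
  let P : Finset ι → Prop := fun K => ∃ W : ι → D,
    (∀ i j, star (W i) * W j = if i = j then s else 0) ∧ (∀ i ∈ K, d * W i = W i) ∧
      ∀ i ∉ K, h i * W i = W i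
  have P0 : P ∅ := by
    choose w w1 w2 using fun i => (h4 i s ds hs.1).elim fun y hy => hs.copy (by simp [h3]) hy
    refine ⟨w, fun i j => ?_, by simp, fun i _ => w1 i⟩
    split_ifs with e
    · rw [← e, w2]
    · rw [← w1 i, ← w1 j, star_mul, h1, mul_assoc, ← mul_assoc (h i), h3, if_neg e]; simp
  classical
  obtain ⟨K, hK, mx⟩ := (univ.filter P).exists_max_image card ⟨∅, by simpa using P0⟩
  obtain ⟨W, w1, w2, w3⟩ : P K := by simpa using hK
  have w4 : ∀ i, W i * s = W i := fun i => by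
    rw [← sub_eq_zero, ← CStarRing.star_mul_self_eq_zero_iff]
    simp [sub_mul, mul_sub, hs.2.1, mul_assoc, w1, ← mul_assoc (star (W i)), hs.2.2.1]
  obtain ⟨R, hR⟩ : ∃ R, R = ∑ i, W i * star (W i) := ⟨_, rfl⟩
  have r1 : ∀ j, R * W j = W j := fun j => by simp [hR, sum_mul, mul_assoc, w1, w4]
  have r2 : star R = R := by simp [hR, star_sum]
  have r3 : R * R = R := by nth_rw 2 3 [hR]; simp [mul_sum, ← mul_assoc, r1]
  have r4 : ∀ a, star a = a → (∀ i, a * W i = W i ∨ a * W i = 0) → R * a = a * R := fun a a1 a2 => by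
    rw [← r2, ← a1, ← star_mul, r2, a1, hR, mul_sum, star_sum]
    exact sum_congr rfl fun i _ => by rcases a2 i with e | e <;> simp [← mul_assoc, e]
  have rd : R * d = d * R := r4 d d1 fun i => (em (i ∈ K)).imp (w2 i) fun hi => by
    rw [← w3 i hi, ← mul_assoc, h2, zero_mul]
  have rh : ∀ j, R * h j = h j * R := fun j => r4 _ (h1 j) fun i => by
    by_cases hi : i ∈ K
    · exact .inr (by rw [← w2 i hi, ← mul_assoc, h2', zero_mul])
    · rw [← w3 i hi, ← mul_assoc, h3]
      split_ifs with e <;> simp [e]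
  have mu : ∀ a b, R * b = b * R → (a - a * R) * (b - b * R) = a * b - a * b * R := fun a b e => by
    simp [sub_mul, mul_sub, mul_assoc, ← mul_assoc R, e, r3]
  have st : ∀ a, star a = a → R * a = a * R → star (a - a * R) = a - a * R := fun a a1 e => by
    simp [a1, r2, e]
  have k1 : ∀ a j, (a - a * R) * W j = 0 := fun a j => by simp [sub_mul, mul_assoc, r1]
  have alt : K = univ ∨ ∀ x, (d - d * R) * x * s = 0 := by
    by_contra! hc
    obtain ⟨hc, x, hx⟩ := hc
    obtain ⟨i, hi⟩ : ∃ i, i ∉ K := by simpa [eq_univ_iff_forall] using hc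
    obtain ⟨w, e1, e2⟩ := hs.copy (by rw [mu _ _ rd, d2]) hx
    have e3 : ∀ j, star w * W j = 0 := fun j => by
      rw [← e1, star_mul, st d d1 rd, mul_assoc, k1, mul_zero]
    have e4 : ∀ j, star (W j) * w = 0 := fun j => by simpa using congrArg star (e3 j)
    have := mx (insert i K) (mem_filter.2 ⟨mem_univ _, Function.update W i w, fun j k => ?_,
      fun j hj => ?_, fun j hj => ?_⟩)
    · simp [card_insert_of_notMem hi] at this
    · rcases eq_or_ne j i with rfl | a <;> rcases eq_or_ne k j with rfl | b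
      · simp [e2]
      · simp [b, b.symm, e3]
      · simp [a, w1]
      · rcases eq_or_ne k i with rfl | c <;> simp [*]
    · rcases eq_or_ne j i with rfl | a
      · rw [Function.update_self, ← e1, ← mul_assoc, mul_sub, ← mul_assoc, d2]
      · simpa [a] using w2 j ((mem_insert.1 hj).resolve_left a)
    · rw [mem_insert, not_or] at hj
      simpa [hj.1] using w3 j hj.2
  obtain ⟨i, hi⟩ : K.Nonempty := by
    refine alt.elim (fun e => e ▸ univ_nonempty) fun e => nonempty_iff_ne_empty.2 fun e' => hs.1 ?_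
    have : d * R = 0 := by
      rw [hR, mul_sum]
      exact sum_eq_zero fun i _ => by
        rw [← w3 i (by simp [e']), ← mul_assoc, ← mul_assoc, h2, zero_mul, zero_mul]
    simpa [this, ds, hs.2.2.1] using e s
  refine (ih (d - d * R) (fun j => h j - h j * R)
    (lt_of_lt_of_le (Submodule.finrank_lt_finrank_of_lt (lt_of_le_not_ge ?_ fun e => ?_))
      (Nat.lt_succ_iff.1 hn)) (st d d1 rd) (by rw [mu _ _ rd, d2]) (fun j => st _ (h1 j) (rh j))
    (fun j => by simp [mu _ _ (rh j), h2]) (fun j k => by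
      rw [mu _ _ (rh k), h3]; split_ifs <;> simp) fun j z hz z0 => ?_).elim
    fun E ⟨⟨m1, m2⟩, m3, m4⟩ => ?_
  rotate_right
  · have n1 : ∀ i j, R * E i j = 0 := m4 R (by simp [mul_sub, ← mul_assoc, rd, mul_assoc d, r3])
      fun k => by simp [mul_sub, ← mul_assoc, rh, mul_assoc (h k), r3]
    have n2 : ∀ i j, E i j * R = 0 := fun i j => by simpa [m1, r2] using congrArg star (n1 j i)
    have n3 : ∀ i j k, E i j * W k = 0 := fun i j k => by rw [← r1, ← mul_assoc, n2, zero_mul]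
    have n4 : ∀ i j k, star (W k) * E i j = 0 := fun i j k => by
      simpa [m1] using congrArg star (n3 j i k)
    refine ⟨fun i j => W i * star (W j) + E i j, ⟨fun i j => by simp [m1], fun i j k l => ?_⟩, ?_,
      fun e e1 e2 i j => ?_⟩
    · simp only [add_mul, mul_add, mul_assoc, n4, ← mul_assoc (E i j), n3, m2,
        ← mul_assoc (star (W j)), w1]
      split_ifs <;> simp [← mul_assoc, w4]
    · rw [mul_sub, ← rd, ← mul_assoc, sum_mul _ _ R] at m3
      simp only [n2, sum_const_zero, zero_mul, sub_zero] at m3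
      rw [sum_add_distrib, ← hR, add_mul, m3, add_sub_cancel]
    · have : e * W i = 0 := by
        by_cases hi : i ∈ K
        · rw [← w2 i hi, ← mul_assoc, e1, zero_mul]
        · rw [← w3 i hi, ← mul_assoc, e2, zero_mul]
      simp [mul_add, ← mul_assoc, this, m4 e (by simp [mul_sub, ← mul_assoc, e1])
        (fun k => by simp [mul_sub, ← mul_assoc, e2])]
  · rintro _ ⟨x, rfl⟩
    exact ⟨x - R * x, by simp [mul_sub, sub_mul, mul_assoc]⟩
  · obtain ⟨x, hx⟩ := e ⟨W i, w2 i hi⟩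
    have := k1 d i
    rw [← hx, LinearMap.mulLeft_apply, ← mul_assoc, mu _ _ rd, d2] at this
    have e := w1 i i
    rw [← hx, LinearMap.mulLeft_apply, this] at e
    exact hs.1 (by simpa using e.symm)
  · obtain ⟨y, hy⟩ := h4 j z (by rw [← hz, ← mul_assoc, mul_sub, ← mul_assoc, d2]) z0
    refine ⟨y, ?_⟩
    suffices h j * R * y * z = 0 by simpa [sub_mul, this] using hy
    rcases alt with e | e
    · rw [hR, mul_sum, sum_eq_zero fun i _ => by
        rw [← w2 i (e ▸ mem_univ i), ← mul_assoc, ← mul_assoc, h2', zero_mul, zero_mul]]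
      simp
    · have : ∀ i, star (W i) * y * z = 0 := fun i => by
        have := congrArg star (e (star y * W i))
        rw [mul_assoc, mul_assoc, w4, star_mul, st d d1 rd] at this
        rw [← hz, ← mul_assoc]
        simpa using congrArg (· * z) this
      simp [hR, mul_sum, sum_mul, mul_assoc, this]

end Pool.Agent.H.MP_2001a4_an
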