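import Pool.Agent.H.MP_2001a4_an.A

set_option autoImplicit false

namespace Pool.Agent.H.MP_2001a4_an

open Filter Topology Finset Module

/-- data of an asymptotically central decreasing sequence of projections -/
structure Dat (A : Type) [NonUnitalCStarAlgebra A] where
  /-- the projections -/
  z : ℕ → A
  /-- the unit -/
  g : A
  z0 : ∀ n, z n ≠ 0
  z1 : ∀ n, star (z n) = z n
  z2 : ∀ m n, m ≤ n → z m * z n = z n
  z3 : ∀ x, Tendsto (fun n => z n * x - x * z n) atTop (𝓝 0)
  z4 : ∀ n, g * z n = z n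

namespace Dat

variable {A : Type} [NonUnitalCStarAlgebra A] (δ : Dat A)

lemma nz (n : ℕ) : ‖δ.z n‖ = 1 := by
  have := CStarRing.norm_star_mul_self (x := δ.z n)
  rw [δ.z1, δ.z2 n n le_rfl] at this
  exact (mul_eq_left₀ (norm_ne_zero_iff.2 (δ.z0 n))).1 this.symm

/-- the ideal -/
def K : Submodule ℂ A where
  carrier := {x | Tendsto (fun n => x * δ.z n) atTop (𝓝 0)}
  add_mem' {a b} ha hb := by simpa [add_mul] using Tendsto.add ha hb
  zero_mem' := by simp
  smul_mem' c a ha := by simpa [smul_mul_assoc] using Tendsto.const_smul ha c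

lemma mem {x : A} : x ∈ δ.K ↔ Tendsto (fun n => x * δ.z n) atTop (𝓝 0) := Iff.rfl

lemma Kl (a : A) {x : A} (h : x ∈ δ.K) : a * x ∈ δ.K := by
  simpa [mem, mul_assoc] using Tendsto.const_mul a h

lemma Kr (a : A) {x : A} (h : x ∈ δ.K) : x * a ∈ δ.K := by
  simpa [mem, mul_assoc, mul_sub] using (Tendsto.mul_const a h).sub ((δ.z3 a).const_mul x)

lemma Ks {x : A} (h : x ∈ δ.K) : star x ∈ δ.K := by
  simpa [mem, δ.z1] using ((δ.z3 x).add h).star

instance : IsClosed (δ.K : Set A) := isClosed_of_closure_subset fun x hx =>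
  Metric.tendsto_nhds.2 fun ε hε => by
    obtain ⟨y, hy, h⟩ := Metric.mem_closure_iff.1 hx (ε / 2) (half_pos hε)
    refine (Metric.tendsto_nhds.1 hy (ε / 2) (half_pos hε)).mono fun n hn => ?_
    have := norm_mul_le (x - y) (δ.z n)
    have h2 := norm_add_le ((x - y) * δ.z n) (y * δ.z n)
    rw [sub_mul, sub_add_cancel, ← sub_mul] at h2
    simp only [dist_eq_norm, δ.nz, mul_one, sub_zero] at *
    linarith

/-- the quotient -/
def Q : Type := A ⧸ δ.K

noncomputable instance : NormedAddCommGroup δ.Q := inferInstanceAs (NormedAddCommGroup (A ⧸ δ.K))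
noncomputable instance : NormedSpace ℂ δ.Q := inferInstanceAs (NormedSpace ℂ (A ⧸ δ.K))
instance : CompleteSpace δ.Q := inferInstanceAs (CompleteSpace (A ⧸ δ.K))

/-- the quotient map -/
noncomputable def qm : A →ₗ[ℂ] δ.Q := δ.K.mkQ

lemma sur : Function.Surjective δ.qm := δ.K.mkQ_surjective

lemma eq {x y : A} : δ.qm x = δ.qm y ↔ x - y ∈ δ.K := Submodule.Quotient.eq _

lemma nrm (x : A) : Tendsto (fun n => ‖x * δ.z n‖) atTop (𝓝 ‖δ.qm x‖) := by
  refine tendsto_order.2 ⟨fun a ha => .of_forall fun n => ha.trans_le ?_, fun a ha => ?_⟩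
  · rw [show δ.qm x = δ.qm (x * δ.z n) from δ.eq.2 (tendsto_const_nhds.congr'
      ((eventually_ge_atTop n).mono fun m hm => by simp [sub_mul, mul_assoc, δ.z2 n m hm]))]
    exact Submodule.Quotient.norm_mk_le _ _
  · obtain ⟨y, hy, h⟩ := Submodule.Quotient.norm_mk_lt (S := δ.K) (δ.qm x)
      (half_pos (sub_pos.2 ha))
    refine (Metric.tendsto_nhds.1 (δ.eq.1 (show δ.qm x = δ.qm y from hy.symm)) _
      (half_pos (sub_pos.2 ha))).mono fun n hn => ?_
    have := norm_mul_le y (δ.z n)
    have h2 := norm_add_le ((x - y) * δ.z n) (y * δ.z n)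
    rw [sub_mul, sub_add_cancel, ← sub_mul] at h2
    have h3 : ‖y‖ < ‖δ.qm x‖ + (a - ‖δ.qm x‖) / 2 := h
    simp only [dist_zero_right, δ.nz, mul_one] at *
    linarith

noncomputable instance : Mul δ.Q :=
  ⟨fun a b => δ.qm (Function.surjInv δ.sur a * Function.surjInv δ.sur b)⟩
noncomputable instance : Star δ.Q := ⟨fun a => δ.qm (star (Function.surjInv δ.sur a))⟩
noncomputable instance : One δ.Q := ⟨δ.qm δ.g⟩

lemma mul (x y : A) : δ.qm x * δ.qm y = δ.qm (x * y) := δ.eq.2 <| by
  have := add_mem (δ.Kr (Function.surjInv δ.sur (δ.qm y))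
    (δ.eq.1 (Function.surjInv_eq δ.sur (δ.qm x))))
    (δ.Kl x (δ.eq.1 (Function.surjInv_eq δ.sur (δ.qm y))))
  simpa [sub_mul, mul_sub] using this

lemma str (x : A) : star (δ.qm x) = δ.qm (star x) := δ.eq.2 <| by
  simpa using δ.Ks (δ.eq.1 (Function.surjInv_eq δ.sur (δ.qm x)))

noncomputable instance : Ring δ.Q :=
  { (inferInstance : AddCommGroup δ.Q), (inferInstance : Mul δ.Q), (inferInstance : One δ.Q) with
    mul_assoc := by simp only [δ.sur.forall, mul, mul_assoc, implies_true]
    left_distrib := by simp only [δ.sur.forall, mul, ← map_add, mul_add, implies_true]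
    right_distrib := by simp only [δ.sur.forall, mul, ← map_add, add_mul, implies_true]
    zero_mul := δ.sur.forall.2 fun x => by rw [← map_zero δ.qm, mul, zero_mul]
    mul_zero := δ.sur.forall.2 fun x => by rw [← map_zero δ.qm, mul, mul_zero]
    one_mul := δ.sur.forall.2 fun x => (δ.mul _ _).trans <| δ.eq.2 <| by
      simpa [mem, sub_mul, mul_sub, mul_assoc, ← mul_assoc δ.g (δ.z _), δ.z4] using
        (δ.z3 x).sub ((δ.z3 x).const_mul δ.g)
    mul_one := δ.sur.forall.2 fun x => (δ.mul _ _).trans <| δ.eq.2 <| by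
      simp [mem, sub_mul, mul_assoc, δ.z4] }

lemma nrm2 (x y : A) : Tendsto (fun n => ‖x * δ.z n * (y * δ.z n)‖) atTop (𝓝 ‖δ.qm (x * y)‖) := by
  have h : Tendsto (fun n => x * (δ.z n * y - y * δ.z n) * δ.z n) atTop (𝓝 0) :=
    squeeze_zero_norm (fun n => (norm_mul_le _ _).trans (by rw [δ.nz, mul_one]))
      (by simpa using ((δ.z3 y).const_mul x).norm)
  refine (δ.nrm (x * y)).congr_dist (squeeze_zero (fun _ => dist_nonneg) (fun n => ?_)
    (by simpa using h.norm))
  rw [dist_comm]
  refine (dist_norm_norm_le _ _).trans (le_of_eq ?_)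
  simp [sub_mul, mul_sub, mul_assoc, δ.z2 n n le_rfl]

noncomputable instance : NormedRing δ.Q :=
  { (inferInstance : NormedAddCommGroup δ.Q), (inferInstance : Ring δ.Q) with
    norm_mul_le := δ.sur.forall₂.2 fun x y => by
      rw [mul]
      exact le_of_tendsto_of_tendsto' (δ.nrm2 x y) ((δ.nrm x).mul (δ.nrm y))
        fun n => norm_mul_le _ _ }

noncomputable instance : NormedAlgebra ℂ δ.Q :=
  { Algebra.ofModule (R := ℂ) (A := δ.Q)
      (by simp only [δ.sur.forall, mul, ← map_smul, smul_mul_assoc, implies_true])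
      (by simp only [δ.sur.forall, mul, ← map_smul, mul_smul_comm, implies_true]) with
    norm_smul_le := norm_smul_le }

noncomputable instance : StarRing δ.Q where
  star_involutive := δ.sur.forall.2 fun x => by rw [str, str, star_star]
  star_mul := by simp only [δ.sur.forall, mul, str, star_mul, implies_true]
  star_add := by simp only [δ.sur.forall, str, ← map_add, star_add, implies_true]

noncomputable instance : CStarAlgebra δ.Q where
  norm_mul_self_le := δ.sur.forall.2 fun x => by
    rw [str, mul]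
    refine le_of_tendsto_of_tendsto' ((δ.nrm x).mul (δ.nrm x)) (δ.nrm _) fun n => ?_
    rw [← CStarRing.norm_star_mul_self, star_mul, mul_assoc, ← mul_assoc (star x), δ.z1]
    exact (norm_mul_le _ _).trans (by rw [δ.nz, one_mul])
  star_smul c := δ.sur.forall.2 fun x => by rw [← map_smul, str, str, star_smul, map_smul]

include δ in
lemma false (h : ∀ (D : Type) [CStarAlgebra D], Nontrivial D →
    ∀ φ : A →⋆ₙₐ[ℂ] D, ¬ Function.Surjective φ) : False :=
  h δ.Q ⟨δ.qm δ.g, δ.qm 0, fun e => by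
    have := (δ.mem.1 (δ.eq.1 e)).norm
    simp [δ.z4, δ.nz] at this⟩
    { toFun := δ.qm, map_smul' := map_smul _, map_zero' := map_zero _, map_add' := map_add _,
      map_mul' := fun x y => (δ.mul x y).symm, map_star' := fun x => (δ.str x).symm } δ.sur

end Dat

end Pool.Agent.H.MP_2001a4_an
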