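import Pool.Agent.H.MP_2001a4_an.B

set_option autoImplicit false

namespace Pool.Agent.H.MP_2001a4_an

open Filter Topology Finset Module

lemma prj {A : Type} [NonUnitalCStarAlgebra A] {a : A} (h1 : star a = a) (h : a * a = a) :
    ‖a‖ ≤ 1 := by
  have := CStarRing.norm_star_mul_self (x := a)
  rw [h1, h] at this
  nlinarith [norm_nonneg a]

lemma ptrick {D B : Type} [NonUnitalCStarAlgebra D] [FiniteDimensional ℂ D]
    [NonUnitalCStarAlgebra B] (ψ : D →⋆ₙₐ[ℂ] B) (I : TwoSidedIdeal B) (hI : IsClosed (I : Set B))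
    {x : D} {y : B} (hy : y ∈ I) (h : ‖ψ x - y‖ < ‖x‖) : ∃ q ≠ 0, ψ q ∈ I := by
  have r0 : 0 < ‖x‖ := (norm_nonneg _).trans_lt h
  let t : D := ((‖x‖ * ‖x‖ : ℝ) : ℂ)⁻¹ • star x
  have nt : ∀ z : D, ‖((‖x‖ * ‖x‖ : ℝ) : ℂ)⁻¹ • z‖ = (‖x‖ * ‖x‖)⁻¹ * ‖z‖ := fun z => by
    simp [norm_smul]
  let H : ℕ → D := fun n => (fun a => a * a)^[n] (t * x)
  let w : ℕ → B := fun n => (fun a => a * a)^[n] (ψ t * (ψ x - y))
  obtain ⟨ρ, hρ⟩ : ∃ ρ, ρ = ‖ψ t * (ψ x - y)‖ := ⟨_, rfl⟩
  have ρ0 : 0 ≤ ρ := hρ ▸ norm_nonneg _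
  have ρ1 : ρ < 1 := by
    refine hρ ▸ (norm_mul_le _ _).trans_lt (lt_of_le_of_lt (mul_le_mul_of_nonneg_right
      (NonUnitalStarAlgHom.norm_apply_le ψ t) (norm_nonneg _)) ?_)
    rw [nt, norm_star, mul_inv, mul_assoc ‖x‖⁻¹, inv_mul_cancel₀ r0.ne', mul_one,
      inv_mul_lt_one₀ r0]
    exact h
  have key : ∀ n, star (H n) = H n ∧ ‖H n‖ = 1 ∧ ψ (H n) - w n ∈ I ∧ ‖w n‖ ≤ ρ ^ (n + 1) := by
    intro n
    induction n with
    | zero =>
      refine ⟨by simp [H, t, smul_mul_assoc], ?_, by simpa [H, w, mul_sub] using I.mul_mem_left _ _ hy,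
        by simp [w, hρ]⟩
      change ‖t * x‖ = 1
      rw [smul_mul_assoc, nt, CStarRing.norm_star_mul_self, inv_mul_cancel₀ (by positivity)]
    | succ n ih =>
      obtain ⟨h1, h2, h3, h4⟩ := ih
      have e1 : H (n + 1) = H n * H n := Function.iterate_succ_apply' _ _ _
      have e2 : w (n + 1) = w n * w n := Function.iterate_succ_apply' _ _ _
      refine ⟨by rw [e1, star_mul, h1], ?_, ?_, ?_⟩
      · rw [e1]
        nth_rw 1 [← h1]
        rw [CStarRing.norm_star_mul_self, h2, one_mul]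
      · simpa [e1, e2, mul_sub, sub_mul] using
          I.add_mem (I.mul_mem_left (ψ (H n)) _ h3) (I.mul_mem_right _ (w n) h3)
      · rw [e2, pow_succ]
        exact (norm_mul_le _ _).trans (mul_le_mul h4 (h4.trans (pow_le_of_le_one ρ0 ρ1.le
          n.succ_ne_zero)) (norm_nonneg _) (by positivity))
  have := FiniteDimensional.proper ℂ D
  obtain ⟨q, hq, φ, hφ, lim⟩ := (isCompact_sphere (0 : D) 1).tendsto_subseq
    (x := H) fun n => by simpa using (key n).2.1
  have hw : Tendsto w atTop (𝓝 0) := squeeze_zero_norm (fun n => (key n).2.2.2)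
    ((tendsto_pow_atTop_nhds_zero_of_lt_one ρ0 ρ1).comp (tendsto_add_atTop_nat 1))
  have hc : Continuous ψ := AddMonoidHomClass.continuous_of_bound ψ 1 fun a => by
    simpa using NonUnitalStarAlgHom.norm_apply_le ψ a
  refine ⟨q, fun e => by simp [e] at hq, ?_⟩
  simpa using hI.mem_of_tendsto (((hc.tendsto q).comp lim).sub (hw.comp hφ.tendsto_atTop))
    (.of_forall fun n => (key (φ n)).2.2.1)

/-- type synonym -/
def Hs (D : Type) : Type := D

instance {D : Type} [AddCommGroup D] : AddCommGroup (Hs D) := ‹_›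
instance {D : Type} [AddCommGroup D] [Module ℂ D] : Module ℂ (Hs D) := ‹_›

lemma rep (D : Type) [CStarAlgebra D] [FiniteDimensional ℂ D] [Nontrivial D] :
    ∃ (N : ℕ) (σ : D →⋆ₐ[ℂ] Matrix (Fin (N + 1)) (Fin (N + 1)) ℂ), Function.Injective σ := by
  classical
  let An : Finset D → Submodule ℂ D := fun F => ⨅ s ∈ F, LinearMap.ker (LinearMap.mulRight ℂ s)
  have an : ∀ F x, x ∈ An F ↔ ∀ s ∈ F, x * s = 0 := fun F x => by simp [An]
  obtain ⟨F, hF, mn⟩ := (measure fun F => finrank ℂ (An F)).wf.has_min {F | ∀ s ∈ F, Mn s}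
    ⟨∅, by simp⟩
  have fa : ∀ x, (∀ s ∈ F, x * s = 0) → x = 0 := fun x hx => by_contra fun x0 => by
    obtain ⟨y, u0, u1, u2⟩ := supp (star_ne_zero.2 x0)
    obtain ⟨s, hs, e⟩ := exmin u0 u1 u2
    refine mn (insert s F) (by simpa using ⟨hs, hF⟩) (Submodule.finrank_lt_finrank_of_lt
      (lt_of_le_not_ge (fun z hz => (an _ _).2 fun t ht => (an _ _).1 hz t (mem_insert_of_mem ht))
        fun le => hs.1 ?_))
    rw [← e, star_star, mul_assoc, (an _ _).1 (le ((an _ _).2 hx)) s (mem_insert_self _ _), mul_zero]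
  choose l hl using fun s : F => Module.Projective.exists_dual_eq_one ℂ (hF s s.2).1
  let f : D →ₗ[ℂ] ℂ := ∑ s : F, l s ∘ₗ LinearMap.mulLeftRight ℂ (s.1, s.1)
  have f1 : ∀ x, f x = ∑ s : F, l s (s * x * s) := fun x => by simp [f]
  choose c c0 hc using fun (x : D) (s : F) => (hF s s.2).pos x
  have f2 : ∀ x, f (star x * x) = (∑ s, c x s : ℝ) := fun x => by simp [f1, hc, hl]
  let K : InnerProductSpace.Core ℂ (Hs D) :=
    { inner := fun x y : D => f (star x * y)
      conj_inner_symm := fun x y : D => by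
        simp only [f1, map_sum]
        refine sum_congr rfl fun s _ => ?_
        obtain ⟨a, ha⟩ := (hF s s.2).2.2.2 (star y * x)
        have := congrArg star ha
        simp only [star_mul, star_star, (hF s s.2).2.1, star_smul, ← mul_assoc] at this
        simp only [← mul_assoc] at ha ⊢
        simp [this, ha, hl]
      re_inner_nonneg := fun x : D => by
        rw [f2]; exact_mod_cast sum_nonneg fun s _ => c0 x s
      add_left := fun x y z : D => show f (star (x + y) * z) = _ by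
        rw [star_add, add_mul, map_add]
      smul_left := fun (x y : D) r => show f (star (r • x) * y) = _ by
        rw [star_smul, smul_mul_assoc, map_smul]; rfl
      definite := fun (x : D) hx => fa x fun s hs => by
        have : ∑ s, c x s = 0 := by exact_mod_cast (f2 x).symm.trans hx
        have h := hc x ⟨s, hs⟩
        rw [(sum_eq_zero_iff_of_nonneg fun s _ => c0 x s).1 this _ (mem_univ _)] at h
        rw [← CStarRing.star_mul_self_eq_zero_iff, star_mul, (hF s hs).2.1]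
        simpa [mul_assoc] using h }
  let _ := K.toNormedAddCommGroup
  let _ : InnerProductSpace ℂ (Hs D) := .ofCore K.toCore
  have : FiniteDimensional ℂ (Hs D) := ‹_›
  obtain ⟨N, hN⟩ := Nat.exists_eq_succ_of_ne_zero (finrank_pos (R := ℂ) (M := D)).ne'
  let b := (stdOrthonormalBasis ℂ (Hs D)).reindex (finCongr hN)
  let L : D →⋆ₐ[ℂ] Hs D →ₗ[ℂ] Hs D :=
    { Algebra.lmul ℂ D with
      map_star' := fun a => (LinearMap.eq_adjoint_iff (E := Hs D) (F := Hs D) _ _).2
        fun x y : D => show f (star (star a * x) * y) = f (star x * (a * y)) by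
          simp [mul_assoc] }
  exact ⟨N, StarAlgHom.comp (StarAlgHomClass.toStarAlgHom (LinearMap.toMatrixOrthonormal b)) L,
    (LinearMap.toMatrixOrthonormal b).injective.comp (Algebra.lmul_injective (R := ℂ) (A := D))⟩

variable {A : Type} [NonUnitalCStarAlgebra A]

/-- ideal generated inside a subalgebra -/
def Idl (T : NonUnitalStarSubalgebra ℂ A) (h : A) : Submodule ℂ A :=
  Submodule.span ℂ {z | ∃ x ∈ T, ∃ y ∈ T, z = x * h * y}

lemma Idl_ind {T : NonUnitalStarSubalgebra ℂ A} {h z : A} (hz : z ∈ Idl T h) (P : Submodule ℂ A)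
    (f : A →ₗ[ℂ] A) (H : ∀ x ∈ T, ∀ y ∈ T, f (x * h * y) ∈ P) : f z ∈ P :=
  (Submodule.span_le (p := P.comap f)).2 (by rintro _ ⟨x, hx, y, hy, rfl⟩; exact H x hx y hy) hz

lemma Idl_l {T : NonUnitalStarSubalgebra ℂ A} {h z a : A} (ha : a ∈ T) (hz : z ∈ Idl T h) :
    a * z ∈ Idl T h := Idl_ind hz _ (LinearMap.mulLeft ℂ a) fun x hx y hy =>
  Submodule.subset_span ⟨a * x, mul_mem ha hx, y, hy, by simp [mul_assoc]⟩

lemma Idl_r {T : NonUnitalStarSubalgebra ℂ A} {h z a : A} (ha : a ∈ T) (hz : z ∈ Idl T h) :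
    z * a ∈ Idl T h := Idl_ind hz _ (LinearMap.mulRight ℂ a) fun x hx y hy =>
  Submodule.subset_span ⟨x, hx, y * a, mul_mem hy ha, by simp [mul_assoc]⟩

lemma Idl_unit (T : NonUnitalStarSubalgebra ℂ A) [FiniteDimensional ℂ T] {h : A} (hT : h ∈ T)
    (hs : star h = h) : ∃ v ∈ Idl T h, v ∈ T ∧ star v = v ∧ (∀ x ∈ T, x * v = v * x) ∧
      ∀ x ∈ Idl T h, v * x = x ∧ x * v = x := by
  have le : Idl T h ≤ T.toSubmodule := fun z hz =>
    Idl_ind hz _ LinearMap.id fun x hx y hy => T.mul_mem (T.mul_mem hx hT) hy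
  let J : NonUnitalStarSubalgebra ℂ A :=
    { Idl T h with
      mul_mem' := fun ha hb => Idl_l (le ha) hb
      star_mem' := fun {z} hz => Submodule.span_induction (p := fun z _ => star z ∈ Idl T h)
        (by
          rintro _ ⟨x, hx, y, hy, rfl⟩
          exact Submodule.subset_span ⟨_, star_mem hy, _, star_mem hx, by simp [hs, mul_assoc]⟩)
        (by simp) (fun _ _ _ _ a b => by simpa using add_mem a b)
        (fun c _ _ a => by simpa using Submodule.smul_mem _ _ a) hz }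
  have : FiniteDimensional ℂ T.toSubmodule := ‹_›
  have : FiniteDimensional ℂ J := Submodule.finiteDimensional_of_le le
  obtain ⟨v, h1, h2, h3⟩ := unit J
  exact ⟨v, h1, le h1, h2, fun x hx => by
    rw [← (h3 _ (Idl_l hx h1)).1, ← mul_assoc, (h3 _ (Idl_r hx h1)).2], h3⟩

lemma dens {S : ℕ → NonUnitalStarSubalgebra ℂ A} (hd : Dense (⋃ n, (S n : Set A)))
    (f : ℕ → A → A) (hf : ∀ n x y, ‖f n x - f n y‖ ≤ 2 * ‖x - y‖)
    (h : ∀ k, ∀ y ∈ S k, ∀ᶠ n in atTop, f n y = 0) (x : A) :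
    Tendsto (f · x) atTop (𝓝 0) := Metric.tendsto_nhds.2 fun ε hε => by
  obtain ⟨y, hy, e⟩ := hd.exists_dist_lt x (half_pos hε)
  obtain ⟨k, hk⟩ := Set.mem_iUnion.1 hy
  refine (h k y hk).mono fun n hn => ?_
  have := hf n x y
  rw [hn, ← dist_eq_norm, ← dist_eq_norm] at this
  linarith

lemma full (h : ∀ (D : Type) [CStarAlgebra D], Nontrivial D →
      ∀ φ : A →⋆ₙₐ[ℂ] D, ¬ Function.Surjective φ) {S : ℕ → NonUnitalStarSubalgebra ℂ A}
    (hm : Monotone S) [∀ n, FiniteDimensional ℂ (S n)] (hd : Dense (⋃ n, (S n : Set A)))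
    {u : ℕ → A} (u1 : ∀ n, u n ∈ S n) (u2 : ∀ n, star (u n) = u n)
    (u3 : ∀ n, ∀ x ∈ S n, u n * x = x ∧ x * u n = x) (m : ℕ) :
    ∃ n > m, u m ∈ Idl (S n) (u n - u m) := by
  by_contra! hc
  have g1 : ∀ n, u m ∈ S (n + m + 1) := fun n => hm (by omega) (u1 m)
  choose v v1 v2 v3 v4 v5 using fun n => Idl_unit (S (n + m + 1)) (sub_mem (u1 _) (g1 n))
    (by rw [star_sub, u2, u2])
  have k1 : ∀ n, ∀ x ∈ Idl (S (n + m + 1)) (u (n + m + 1) - u m), x * (u (n + m + 1) - v n) = 0 :=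
    fun n x hx => by
      rw [← (v5 n x hx).2, mul_assoc, mul_sub, (u3 _ _ (v2 n)).2, (v5 n _ (v1 n)).1]; simp
  have k2 : ∀ n, u m * (u (n + m + 1) - v n) = u (n + m + 1) - v n := fun n => by
    have := k1 n _ (Submodule.subset_span ⟨_, u1 _, _, u1 _, rfl⟩)
    rw [(u3 _ _ (sub_mem (u1 _) (g1 n))).1, (u3 _ _ (sub_mem (u1 _) (g1 n))).2, sub_mul,
      (u3 _ _ (sub_mem (u1 _) (v2 n))).1, sub_eq_zero] at this
    exact this.symm
  have k3 : ∀ a b, a ≤ b → (u (a + m + 1) - v a) * (u (b + m + 1) - v b) = u (b + m + 1) - v b :=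
    fun a b hab => by
      have le : S (a + m + 1) ≤ S (b + m + 1) := hm (by omega)
      rw [sub_mul, k1 b (v a) (Idl_ind (v1 a) _ LinearMap.id fun x hx y hy =>
        Submodule.subset_span ⟨x * u _, le (mul_mem hx (u1 _)), y, le hy, by
          rw [mul_assoc x (u _), mul_sub (u _), (u3 _ _ (le (u1 _))).2, (u3 _ _ (g1 a)).1]; rfl⟩),
        sub_zero, ← k2 b, ← mul_assoc, (u3 _ _ (g1 a)).1]
  have k4 : ∀ n, star (u (n + m + 1) - v n) = u (n + m + 1) - v n := fun n => by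
    rw [star_sub, u2, v3]
  refine Dat.false ⟨fun n => u (n + m + 1) - v n, u m, fun n e => hc (n + m + 1) (by omega) ?_,
    k4, k3, dens hd _ (fun n x y => ?_) fun k y hy => ?_, k2⟩ h
  · have := Idl_l (g1 n) (v1 n)
    rwa [← sub_eq_zero.1 e, (u3 _ _ (g1 n)).2] at this
  · have := prj (k4 n) (k3 n n le_rfl)
    set z := u (n + m + 1) - v n
    rw [show z * x - x * z - (z * y - y * z) = z * (x - y) - (x - y) * z by noncomm_ring]
    refine (norm_sub_le _ _).trans ?_
    nlinarith [norm_mul_le z (x - y), norm_mul_le (x - y) z, norm_nonneg (x - y)]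
  · refine (eventually_ge_atTop k).mono fun n hn => ?_
    have hy' : y ∈ S (n + m + 1) := hm (by omega) hy
    simp [sub_mul, mul_sub, (u3 _ _ hy').1, (u3 _ _ hy').2, v4 n y hy']

lemma step {S : ℕ → NonUnitalStarSubalgebra ℂ A} (hm : Monotone S)
    [∀ n, FiniteDimensional ℂ (S n)] {u : ℕ → A} (u1 : ∀ n, u n ∈ S n) (u2 : ∀ n, star (u n) = u n)
    (u3 : ∀ n, ∀ x ∈ S n, u n * x = x ∧ x * u n = x)
    (u4 : ∀ n, u n ∈ Idl (S (n + 1)) (u (n + 1) - u n)) (m N : ℕ) {e : A} (e1 : e ∈ S m)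
    (e2 : star e = e) (e3 : e * e = e) : ∃ E : Fin (N + 1) → Fin (N + 1) → A,
      (∀ i j, E i j ∈ S (m + N + 2)) ∧ MU E ∧ (∀ i j, e * E i j = 0) ∧
      (∑ i, E i i) * (u (m + 1) - e) = u (m + 1) - e := by
  have := cl (S (m + N + 2))
  have a1 : ∀ k ≤ m + N + 2, u k ∈ S (m + N + 2) := fun k hk => hm hk (u1 k)
  have a2 : ∀ a b, u a * u b = u (min a b) := fun a b => (le_total a b).elim
    (fun h => by rw [min_eq_left h, (u3 _ _ (hm h (u1 a))).2])
    fun h => by rw [min_eq_right h, (u3 _ _ (hm h (u1 b))).1]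
  have a3 : ∀ k ≥ m, u k * e = e ∧ e * u k = e := fun k hk => u3 _ _ (hm hk e1)
  obtain ⟨E, ⟨m1, m2⟩, m3, m4⟩ := greedy (D := S (m + N + 2)) (ι := Fin (N + 1)) _
    ⟨u (m + 1) - e, sub_mem (a1 _ (by omega)) (hm (by omega) e1)⟩
    (fun j => ⟨u (m + 1 + j + 1) - u (m + 1 + j),
      sub_mem (a1 _ (by omega)) (a1 _ (by omega))⟩) (Nat.lt_succ_self _)
    (Subtype.ext (by simp [u2, e2])) (Subtype.ext (by simp [sub_mul, mul_sub, a2, a3, e3]))
    (fun j => Subtype.ext (by simp [u2]))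
    (fun j => Subtype.ext (by
      simp [sub_mul, mul_sub, a2, (a3 _ (by omega : m + 1 + (j + 1) ≥ m)).2,
        (a3 _ (by omega : m + 1 + j ≥ m)).2, add_assoc (m + 1)]))
    (fun i j => Subtype.ext (by
      rcases lt_trichotomy i j with h | rfl | h
      · have : (i : ℕ) + 1 ≤ j := h
        simp [h.ne, sub_mul, mul_sub, a2, add_assoc (m + 1), this,
          Nat.le_succ_of_le (Nat.le_of_succ_le this), Nat.le_of_succ_le this]
      · simp [sub_mul, mul_sub, a2]
      · have : (j : ℕ) + 1 ≤ i := h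
        simp [h.ne', sub_mul, mul_sub, a2, add_assoc (m + 1), this,
          Nat.le_succ_of_le (Nat.le_of_succ_le this), Nat.le_of_succ_le this]))
    fun j z hz z0 => by_contra fun hc => z0 (Subtype.ext <| by
      push Not at hc
      have b1 : (u (m + 1) - e) * z.1 = z.1 := congrArg Subtype.val hz
      have b2 := Idl_ind (u4 (m + 1 + j)) ⊥ (LinearMap.mulRight ℂ z.1) fun x hx y hy => by
        have : (u (m + 1 + j + 1) - u (m + 1 + j)) * y * z.1 = 0 :=
          congrArg Subtype.val (hc ⟨y, hm (by omega) hy⟩)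
        simp [mul_assoc x, this]
      rw [← b1, Submodule.mem_bot, LinearMap.mulRight_apply, ← mul_assoc, mul_sub, a2,
        (a3 _ (by omega)).1, min_eq_right (by omega), b1] at b2
      exact b2)
  refine ⟨fun i j => E i j, fun i j => (E i j).2, ⟨fun i j => congrArg Subtype.val (m1 i j),
    fun i j k l => ?_⟩, fun i j => congrArg Subtype.val (m4 ⟨e, hm (by omega) e1⟩
      (Subtype.ext (by simp [mul_sub, a3, e3])) (fun j => Subtype.ext (by
        simp [mul_sub, (a3 _ (by omega : m + 1 + j + 1 ≥ m)).2,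
          (a3 _ (by omega : m + 1 + j ≥ m)).2])) i j), by simpa using congrArg Subtype.val m3⟩
  have := congrArg Subtype.val (m2 i j k l)
  split_ifs at this ⊢ <;> exact this

end Pool.Agent.H.MP_2001a4_an
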