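import Pool.Agent.H.MP_2001a4_an.C

set_option autoImplicit false

namespace Pool.Agent.H.MP_2001a4_an

open Filter Topology Finset Module

variable {A : Type} [NonUnitalCStarAlgebra A]

lemma theta {ι : Type} [Fintype ι] [DecidableEq ι] {E : ι → ι → A} (h : MU E) :
    ∃ θ : Matrix ι ι ℂ →⋆ₙₐ[ℂ] A, θ 1 = ∑ i, E i i := by
  refine ⟨{ toFun := fun x => ∑ i, ∑ j, x i j • E i j
            map_smul' := fun c x => by simp [smul_sum, smul_smul]
            map_zero' := by simp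
            map_add' := fun x y => by simp [add_smul, sum_add_distrib]
            map_mul' := fun x y => ?_
            map_star' := fun x => ?_ }, by simp [Matrix.one_apply]⟩
  · simp only [sum_mul, mul_sum, smul_mul_smul_comm, h.2, Matrix.mul_apply, sum_smul, smul_ite,
      smul_zero]
    rw [sum_comm]
    conv_rhs => rw [sum_comm]
    refine sum_congr rfl fun l _ => ?_
    rw [sum_comm]
    simp
  · simp only [star_sum, star_smul, h.1, Matrix.star_apply]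
    exact sum_comm

lemma simple {ι : Type} [Fintype ι] [DecidableEq ι] (θ : Matrix ι ι ℂ →⋆ₙₐ[ℂ] A)
    (J : TwoSidedIdeal A) {x : Matrix ι ι ℂ} (hx : x ≠ 0) (h : θ x ∈ J) : θ 1 ∈ J := by
  obtain ⟨i, j, hx⟩ : ∃ i j, x i j ≠ 0 := by
    by_contra! hc
    exact hx (Matrix.ext hc)
  rw [← Matrix.sum_single_one, map_sum]
  refine sum_mem fun k _ => ?_
  have := J.mul_mem_right _ (θ (Matrix.single j k 1))
    (J.mul_mem_left (θ (Matrix.single k i (x i j)⁻¹)) _ h)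
  rwa [← map_mul, ← map_mul, Matrix.single_mul_mul_single, inv_mul_cancel₀ hx, one_mul] at this

theorem data (h : ∀ (D : Type) [CStarAlgebra D], Nontrivial D →
      ∀ φ : A →⋆ₙₐ[ℂ] D, ¬ Function.Surjective φ) (S : ℕ → NonUnitalStarSubalgebra ℂ A)
    (hm : Monotone S) [∀ n, FiniteDimensional ℂ (S n)] (hd : Dense (⋃ n, (S n : Set A)))
    (T : ℕ → Type) [∀ n, CStarAlgebra (T n)] [∀ n, FiniteDimensional ℂ (T n)]
    [∀ n, Nontrivial (T n)] : ∃ φ : ∀ n, T n →⋆ₙₐ[ℂ] A,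
      (∀ k l, k ≠ l → φ k 1 * φ l 1 = 0) ∧
      (∀ a, Tendsto (fun n => (∑ l ∈ range n, φ l 1) * a) atTop (𝓝 a)) ∧
      ∀ J : TwoSidedIdeal A, IsClosed (J : Set A) → (∀ᶠ l in atTop, ∃ q ≠ 0, φ l q ∈ J) →
        ∀ a, a ∈ J := by
  choose u u1 u2 u3 using fun n => unit (S n)
  choose nx n1 n2 using full h hm hd u1 u2 u3
  let μ : ℕ → ℕ := fun k => nx^[k] 0
  have μ1 : ∀ k, μ (k + 1) = nx (μ k) := fun k => Function.iterate_succ_apply' _ _ _
  have μ2 : StrictMono μ := strictMono_nat_of_lt_succ fun k => μ1 k ▸ n1 _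
  have hm' : Monotone (S ∘ μ) := hm.comp μ2.monotone
  have u4 : ∀ n, (u ∘ μ) n ∈ Idl ((S ∘ μ) (n + 1)) ((u ∘ μ) (n + 1) - (u ∘ μ) n) := fun n => by
    simpa [μ1] using n2 (μ n)
  have : ∀ n, FiniteDimensional ℂ ((S ∘ μ) n) := fun n => inferInstanceAs (FiniteDimensional ℂ (S _))
  choose N σ hσ using fun n => rep (T n)
  let St := {p : ℕ × A // p.2 ∈ S (μ p.1) ∧ star p.2 = p.2 ∧ p.2 * p.2 = p.2}
  have key : ∀ (k : ℕ) (x : St), ∃ (θ : Matrix (Fin (N k + 1)) (Fin (N k + 1)) ℂ →⋆ₙₐ[ℂ] A)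
      (y : St), x.1.1 < y.1.1 ∧ y.1.2 = x.1.2 + θ 1 ∧ x.1.2 * θ 1 = 0 ∧
        θ 1 * (u (μ (x.1.1 + 1)) - x.1.2) = u (μ (x.1.1 + 1)) - x.1.2 := fun k x => by
    obtain ⟨E, e1, e2, e3, e4⟩ := step hm' (u := u ∘ μ) (fun n => u1 _) (fun n => u2 _)
      (fun n => u3 _) u4 x.1.1 (N k) x.2.1 x.2.2.1 x.2.2.2
    obtain ⟨θ, hθ⟩ := theta e2
    have t1 : star (θ 1) = θ 1 := by rw [← map_star, star_one]
    have t2 : x.1.2 * θ 1 = 0 := by simp [hθ, mul_sum, e3]
    have t3 : θ 1 * x.1.2 = 0 := by rw [← t1, ← x.2.2.1, ← star_mul, t2, star_zero]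
    exact ⟨θ, ⟨(x.1.1 + N k + 2, x.1.2 + θ 1), add_mem (hm' (by omega) x.2.1)
      (hθ ▸ sum_mem fun i _ => e1 i i), by rw [star_add, t1, x.2.2.1], by
        simp [add_mul, mul_add, t2, t3, x.2.2.2, ← map_mul]⟩, by simp; omega, rfl, t2, hθ ▸ e4⟩
  choose θ y k1 k2 k3 k4 using key
  let st : ℕ → St := fun k => Nat.rec ⟨(0, 0), zero_mem _, star_zero _, mul_zero _⟩ y k
  obtain ⟨m, hm1⟩ : ∃ m : ℕ → ℕ, ∀ k, m k = (st k).1.1 := ⟨_, fun _ => rfl⟩
  obtain ⟨e, he⟩ : ∃ e : ℕ → A, ∀ k, e k = (st k).1.2 := ⟨_, fun _ => rfl⟩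
  obtain ⟨f, hf⟩ : ∃ f : ℕ → A, ∀ k, f k = θ k (st k) 1 := ⟨_, fun _ => rfl⟩
  have m1 : StrictMono m := strictMono_nat_of_lt_succ fun k => by rw [hm1, hm1]; exact k1 k _
  have s0 : ∀ k, e k ∈ S (μ (m k)) ∧ star (e k) = e k ∧ e k * e k = e k := fun k => by
    rw [he, hm1]; exact (st k).2
  have s1 : ∀ k, e (k + 1) = e k + f k := fun k => by rw [he, he, hf]; exact k2 k _
  have s2 : ∀ k, e k * f k = 0 := fun k => by rw [he, hf]; exact k3 k _
  have s3 : ∀ k, f k * (u (μ (m k + 1)) - e k) = u (μ (m k + 1)) - e k := fun k => by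
    rw [he, hf, hm1]; exact k4 k _
  have s4 : ∀ k, star (f k) = f k := fun k => by rw [hf, ← map_star, star_one]
  have s5 : ∀ k, f k * e k = 0 := fun k => by rw [← s4, ← (s0 k).2.1, ← star_mul, s2, star_zero]
  have s6 : ∀ k, e k = ∑ l ∈ range k, f l := fun k => by
    induction k with
    | zero => rw [he]; rfl
    | succ k ih => rw [s1, sum_range_succ, ih]
  have s7 : ∀ l k, l < k → e k * f l = f l := fun l k hk => by
    induction k, hk using Nat.le_induction with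
    | base => rw [s1, add_mul, s2, zero_add, hf, ← map_mul, one_mul]
    | succ k _ ih => rw [s1, add_mul, ← ih, ← mul_assoc, ← mul_assoc, s5, (s0 k).2.2]; simp
  have s8 : ∀ l k, l < k → f k * f l = 0 := fun l k hk => by
    rw [← s7 l k hk, ← mul_assoc, s5, zero_mul]
  have s9 : ∀ j, ∀ a ∈ S j, ∀ k ≥ j, a ∈ S (μ (m k)) := fun j a ha k hk =>
    hm (hk.trans (m1.le_apply.trans μ2.le_apply)) ha
  have φ1 : ∀ k, (θ k (st k)).comp (σ k).toNonUnitalStarAlgHom 1 = f k := fun k => by simp [hf]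
  refine ⟨fun k => (θ k (st k)).comp (σ k).toNonUnitalStarAlgHom, fun k l hkl => ?_, fun a => ?_,
    fun J hJ hl a => ?_⟩
  · rw [φ1, φ1]
    exact hkl.lt_or_gt.elim (fun h => by rw [← s4, ← s4 l, ← star_mul, s8 _ _ h, star_zero])
      (s8 _ _)
  · simp only [φ1, ← s6]
    rw [← tendsto_sub_nhds_zero_iff]
    refine dens hd (fun n a => e n * a - a) (fun n x y => ?_) (fun j a ha => ?_) a
    · rw [show e n * x - x - (e n * y - y) = e n * (x - y) - (x - y) by noncomm_ring]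
      refine (norm_sub_le _ _).trans ?_
      nlinarith [norm_mul_le (e n) (x - y), norm_nonneg (x - y), prj (s0 n).2.1 (s0 n).2.2]
    · refine (tendsto_add_atTop_iff_nat 1).1 (tendsto_pure.2 ?_) |> tendsto_pure.1
      refine (eventually_ge_atTop j).mono fun k hk => ?_
      have b := (u3 _ _ (hm' (m k).le_succ (s0 k).1)).2
      have c := s3 k
      rw [mul_sub, s5, sub_zero] at c
      rw [sub_eq_zero, ← (u3 _ _ (hm' (m k).le_succ (s9 j a ha k hk))).1, ← mul_assoc, s1, add_mul]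
      exact congrArg (· * a) (by rw [b, c, add_sub_cancel])
  · refine hJ.closure_subset_iff.2 (Set.iUnion_subset fun j a ha => ?_) (hd a)
    obtain ⟨k, ⟨q, q0, hq⟩, hk⟩ := (hl.and (eventually_ge_atTop j)).exists
    have b1 : f k ∈ J := hf k ▸ simple _ J (fun e => q0 (hσ k (e.trans (map_zero _).symm))) hq
    have b2 := J.mul_mem_right _ (u (μ (m k + 1)) - u (μ (m k))) (s3 k ▸ J.mul_mem_right _ _ b1)
    rw [sub_mul, (u3 _ _ (sub_mem (u1 _) (hm' (m k).le_succ (u1 _)))).1, mul_sub,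
      (u3 _ _ (s0 k).1).2, (u3 _ _ (hm' (m k).le_succ (s0 k).1)).2, sub_self, sub_zero] at b2
    have b3 : u (μ (m k)) * a ∈ J := Submodule.span_induction (p := fun z _ => ∀ a, z * a ∈ J)
      (by
        rintro _ ⟨x, -, y, -, rfl⟩ a
        exact J.mul_mem_right _ _ (J.mul_mem_right _ _ (J.mul_mem_left _ _ b2)))
      (by simp) (fun _ _ _ _ p q a => add_mul (R := A) _ _ _ ▸ J.add_mem (p a) (q a))
      (fun c z _ p a => by rw [smul_mul_assoc, ← mul_smul_comm]; exact p _) (u4 (m k)) a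
    rwa [(u3 _ _ (s9 j a ha k hk)).1] at b3

end Pool.Agent.H.MP_2001a4_an
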