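import Pool.Agent.H.MP_2001a4_an.D

set_option autoImplicit false

namespace Pool.Agent.H.MP_2001a4_an

open Filter Topology Finset Module

variable {A : Type} [NonUnitalCStarAlgebra A]

/-- multipliers -/
abbrev Mu (A : Type) [NonUnitalCStarAlgebra A] := DoubleCentralizer ℂ A

/-- the embedding -/
noncomputable def jj : A →⋆ₙₐ[ℂ] Mu A := DoubleCentralizer.coeHom

lemma cancel {x y : A} (h : ∀ c, c * x = c * y) : x = y := by
  rw [← sub_eq_zero, ← CStarRing.star_mul_self_eq_zero_iff, mul_sub, h, sub_self]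

lemma cancel' {x y : A} (h : ∀ c, x * c = y * c) : x = y := by
  rw [← sub_eq_zero, ← CStarRing.mul_star_self_eq_zero_iff, sub_mul, h, sub_self]

lemma ext1 {y z : Mu A} (h : ∀ a, y.fst a = z.fst a) : y = z :=
  DoubleCentralizer.ext _ _ _ _ (Prod.ext (ContinuousLinearMap.ext h)
    (ContinuousLinearMap.ext fun a => cancel' fun c => by rw [y.central, z.central, h]))

lemma jj1 (a b : A) : (jj a).fst b = a * b := rfl

lemma mul_jj (m : Mu A) (a : A) : m * jj a = jj (m.fst a) := ext1 fun b =>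
  show m.fst (a * b) = m.fst a * b from
    cancel fun c => by rw [← m.central, ← mul_assoc, ← mul_assoc, m.central]

lemma jj_mul (m : Mu A) (a : A) : jj a * m = jj (m.snd a) := ext1 fun b => (m.central a b).symm

lemma jj_inj : Function.Injective (jj : A → Mu A) := fun _ _ h =>
  cancel' fun c => congrArg (fun y : Mu A => y.fst c) h

lemma exmu (P : ℕ → A) (M : ℝ) (hM : ∀ n, ‖P n‖ ≤ M) (h1 : ∀ a, CauchySeq fun n => P n * a)
    (h2 : ∀ a, CauchySeq fun n => a * P n) : ∃ y : Mu A, ‖y‖ ≤ M ∧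
      (∀ a, Tendsto (fun n => P n * a) atTop (𝓝 (y.fst a))) ∧
      ∀ a, Tendsto (fun n => a * P n) atTop (𝓝 (y.snd a)) := by
  choose F hF using fun a => cauchySeq_tendsto_of_complete (h1 a)
  choose G hG using fun a => cauchySeq_tendsto_of_complete (h2 a)
  have b1 : ∀ a, ‖F a‖ ≤ M * ‖a‖ := fun a => le_of_tendsto' (hF a).norm fun n =>
    (norm_mul_le _ _).trans (by gcongr; exact hM n)
  have b2 : ∀ a, ‖G a‖ ≤ M * ‖a‖ := fun a => le_of_tendsto' (hG a).norm fun n =>
    (norm_mul_le _ _).trans (by rw [mul_comm]; gcongr; exact hM n)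
  refine ⟨⟨(LinearMap.mkContinuous ⟨⟨F, fun a b => tendsto_nhds_unique (hF _)
      (by simpa [mul_add] using (hF a).add (hF b))⟩, fun c a => tendsto_nhds_unique (hF _)
      (by simpa [mul_smul_comm] using (hF a).const_smul c)⟩ M b1,
    LinearMap.mkContinuous ⟨⟨G, fun a b => tendsto_nhds_unique (hG _)
      (by simpa [add_mul] using (hG a).add (hG b))⟩, fun c a => tendsto_nhds_unique (hG _)
      (by simpa [smul_mul_assoc] using (hG a).const_smul c)⟩ M b2), fun a b =>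
    tendsto_nhds_unique ((hG a).mul_const b) (by simpa [mul_assoc] using (hF b).const_mul a)⟩,
    ?_, hF, hG⟩
  rw [← DoubleCentralizer.norm_fst]
  exact LinearMap.mkContinuous_norm_le _ ((norm_nonneg _).trans (hM 0)) b1

variable {C : Type} [CStarAlgebra C]

theorem exPhi (T : ℕ → StarSubalgebra ℂ C) (hT : Monotone T) [∀ n, IsClosed (T n : Set C)]
    (φ : ∀ n, T n →⋆ₙₐ[ℂ] A) (o : ∀ k l, k ≠ l → φ k 1 * φ l 1 = 0)
    (au : ∀ a, Tendsto (fun n => (∑ l ∈ range n, φ l 1) * a) atTop (𝓝 a)) :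
    ∃ Φ : ℕ → C → Mu A, Φ 0 1 = 1 ∧ ∀ k, ∀ c ∈ T k, ‖Φ k c‖ ≤ ‖c‖ ∧
      (∀ d ∈ T k, Φ k (c + d) = Φ k c + Φ k d ∧ Φ k (c * d) = Φ k c * Φ k d) ∧
      (∀ r : ℂ, Φ k (r • c) = r • Φ k c) ∧ Φ k (star c) = star (Φ k c) ∧
      ∀ l ≥ k, (∃ a, Φ k c = Φ l c + jj a) ∧
        ∀ h : c ∈ T l, Φ k c * jj (φ l 1) = jj (φ l ⟨c, h⟩) := by
  classical
  obtain ⟨ψ, hψ⟩ : ∃ ψ : ℕ → C → A, ∀ l c, ψ l c = if h : c ∈ T l then φ l ⟨c, h⟩ else 0 :=
    ⟨_, fun _ _ => rfl⟩
  have p0 : ∀ l (c : T l), ψ l c = φ l c := fun l c => by simp [hψ]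
  have p1 : ∀ l c k, ψ l c * φ k 1 = if l = k then ψ l c else 0 := fun l c k => by
    rw [hψ]
    split_ifs with h e e
    · subst e; rw [← map_mul, mul_one]
    · rw [← mul_one (⟨c, h⟩ : T l), map_mul, mul_assoc, o _ _ e, mul_zero]
    all_goals simp
  have p2 : ∀ k l (hk : k ≤ l) (c : T k), ψ l c = φ l (StarSubalgebra.inclusion (hT hk) c) :=
    fun k l hk c => p0 l ⟨c, hT hk c.2⟩
  let P : ∀ k, ℕ → T k →⋆ₙₐ[ℂ] A := fun k n =>
    { toFun := fun c => ∑ l ∈ Ico k n, ψ l c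
      map_smul' := fun r c => by
        rw [smul_sum]
        exact sum_congr rfl fun l hl => by simp only [p2 k l (mem_Ico.1 hl).1, map_smul]; rfl
      map_zero' := sum_eq_zero fun l hl => by simp only [p2 k l (mem_Ico.1 hl).1, map_zero]
      map_add' := fun c d => by
        rw [← sum_add_distrib]
        exact sum_congr rfl fun l hl => by simp only [p2 k l (mem_Ico.1 hl).1, map_add]
      map_mul' := fun c d => by
        rw [mul_sum]
        refine sum_congr rfl fun l hl => ?_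
        have e := p2 k l (mem_Ico.1 hl).1
        rw [e d, ← one_mul (StarSubalgebra.inclusion _ d), map_mul, ← mul_assoc, sum_mul]
        simp only [p1, sum_ite_eq', hl, if_true, e, map_mul]
      map_star' := fun c => by
        rw [star_sum]
        exact sum_congr rfl fun l hl => by simp only [p2 k l (mem_Ico.1 hl).1, map_star] }
  have P1 : ∀ k n c, P k n c = ∑ l ∈ Ico k n, ψ l c := fun _ _ _ => rfl
  have P2 : ∀ k n c, ‖P k n c‖ ≤ ‖c‖ := fun k n c => NonUnitalStarAlgHom.norm_apply_le _ _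
  have P3 : ∀ k n N c, N ≤ n → P k n c * ∑ l ∈ range N, φ l 1 = P k N c := fun k n N c h => by
    rw [P1, sum_mul]
    simp only [mul_sum, p1, sum_ite_eq, mem_range]
    rw [← sum_filter, P1]
    exact sum_congr (by ext; simp; omega) fun _ _ => rfl
  have P4 : ∀ k c a, CauchySeq fun n => P k n c * a := fun k c a =>
    cauchySeq_of_le_tendsto_0 (fun N => 2 * ‖c‖ * ‖a - (∑ l ∈ range N, φ l 1) * a‖)
      (fun n m N hn hm => by
        rw [dist_eq_norm, show P k n c * a - P k m c * a =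
          (P k n c - P k m c) * (a - (∑ l ∈ range N, φ l 1) * a) by
            simp only [sub_mul, mul_sub, ← mul_assoc, P3 k _ N c hn, P3 k _ N c hm]; simp]
        refine (norm_mul_le _ _).trans (mul_le_mul_of_nonneg_right
          ((norm_sub_le _ _).trans ?_) (norm_nonneg _))
        linarith [P2 k n c, P2 k m c])
      (by simpa using (((au a).const_sub a).norm).const_mul (2 * ‖c‖))
  choose Φ f1 f2 f3 using fun k (c : T k) => exmu (P k · c) ‖c‖ (P2 k · c) (P4 k c) fun a => by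
    simpa [← map_star, Function.comp_def] using
      (star_isometry (E := A)).uniformContinuous.comp_cauchySeq (P4 k (star c) (star a))
  have un : ∀ k (c : T k) (y : Mu A), (∀ a, Tendsto (fun n => P k n c * a) atTop (𝓝 (y.fst a))) →
      Φ k c = y := fun k c y h => ext1 fun a => tendsto_nhds_unique (f2 k c a) (h a)
  refine ⟨fun k c => if h : c ∈ T k then Φ k ⟨c, h⟩ else 0, ?_, fun k c hc => ?_⟩
  · simp only [one_mem, dif_pos]
    refine un 0 1 1 fun a => ?_
    simpa only [P1, p0, range_eq_Ico, p2 0 _ (Nat.zero_le _), map_one] using! au a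
  simp only [hc, dif_pos, star_mem hc]
  refine ⟨f1 k ⟨c, hc⟩, fun d hd => ?_, fun r => ?_, un k (star ⟨c, hc⟩) _ fun a => ?_,
    fun l hl => ⟨⟨P k l ⟨c, hc⟩, ?_⟩, fun h => ?_⟩⟩
  · simp only [hd, dif_pos, add_mem hc hd, mul_mem hc hd]
    refine ⟨un k (⟨c, hc⟩ + ⟨d, hd⟩) _ fun a => by
      simpa only [map_add, add_mul] using! (f2 k ⟨c, hc⟩ a).add (f2 k ⟨d, hd⟩ a),
      un k (⟨c, hc⟩ * ⟨d, hd⟩) _ fun a => ?_⟩
    have := (squeeze_zero_norm (f := fun n => P k n ⟨c, hc⟩ * (P k n ⟨d, hd⟩ * a -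
      (Φ k ⟨d, hd⟩).fst a)) (fun n => (norm_mul_le _ _).trans
        (mul_le_mul_of_nonneg_right (P2 k n _) (norm_nonneg _))) (by
          simpa using ((f2 k ⟨d, hd⟩ a).sub_const ((Φ k ⟨d, hd⟩).fst a)).norm.const_mul
            ‖(⟨c, hc⟩ : T k)‖)).add (f2 k ⟨c, hc⟩ ((Φ k ⟨d, hd⟩).fst a))
    simpa only [map_mul, mul_sub, mul_assoc, sub_add_cancel, zero_add] using! this
  · simp only [dif_pos (SMulMemClass.smul_mem r hc)]
    exact un k (r • ⟨c, hc⟩) (r • Φ k ⟨c, hc⟩) fun a => by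
      simpa only [map_smul, smul_mul_assoc] using! (f2 k ⟨c, hc⟩ a).const_smul r
  · simpa [map_star] using (f3 k ⟨c, hc⟩ (star a)).star
  · rw [dif_pos (hT hl hc)]
    refine un k _ _ fun a => ((f2 l ⟨c, hT hl hc⟩ a).add_const (P k l ⟨c, hc⟩ * a)).congr'
      ((eventually_ge_atTop l).mono fun n hn => ?_)
    simp only [P1, ← add_mul]
    rw [add_comm, sum_Ico_consecutive _ hl hn]
  · rw [mul_jj, tendsto_nhds_unique (f2 k ⟨c, hc⟩ (φ l 1)) (tendsto_const_nhds.congr'
      ((eventually_gt_atTop l).mono fun n hn => ?_))]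
    simp only [P1, sum_mul, p1, sum_ite_eq', mem_Ico, hl, hn, and_self, if_true]
    exact (p0 l ⟨c, h⟩).symm

end Pool.Agent.H.MP_2001a4_an
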