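import Pool.Agent.H.MP_2001a4_an.E

set_option autoImplicit false

namespace Pool.Agent.H.MP_2001a4_an

open Filter Topology Finset Module

variable {A : Type} [NonUnitalCStarAlgebra A] {C : Type} [CStarAlgebra C]

theorem build (T : ℕ → StarSubalgebra ℂ C) (hT : Monotone T) [∀ n, IsClosed (T n : Set C)]
    [∀ n, FiniteDimensional ℂ (T n)] (hd : Dense (⋃ n, (T n : Set C)))
    (φ : ∀ n, T n →⋆ₙₐ[ℂ] A) (o : ∀ k l, k ≠ l → φ k 1 * φ l 1 = 0)
    (au : ∀ a, Tendsto (fun n => (∑ l ∈ range n, φ l 1) * a) atTop (𝓝 a))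
    (fu : ∀ J : TwoSidedIdeal A, IsClosed (J : Set A) → (∀ᶠ l in atTop, ∃ q ≠ 0, φ l q ∈ J) →
        ∀ a, a ∈ J) :
    ∃ (B : Type) (_ : CStarAlgebra B) (ι : A →⋆ₙₐ[ℂ] B) (π : B →⋆ₐ[ℂ] C),
        Function.Injective ι ∧ Function.Surjective π ∧
        Set.range ι = {b : B | π b = 0} ∧
        ∀ I : TwoSidedIdeal B, IsClosed (I : Set B) →
          Set.range ι ⊆ (I : Set B) ∨ (I : Set B) ⊆ Set.range ι := by
  obtain ⟨Φ, f0, hΦ⟩ := exPhi T hT φ o au
  have two : ∀ {b d : Mu A × C}, (∃ k, b.2 ∈ T k ∧ ∃ a, b.1 = Φ k b.2 + jj a) →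
      (∃ k, d.2 ∈ T k ∧ ∃ a, d.1 = Φ k d.2 + jj a) → ∃ k, b.2 ∈ T k ∧ d.2 ∈ T k ∧
        ∃ a e, b.1 = Φ k b.2 + jj a ∧ d.1 = Φ k d.2 + jj e := by
    rintro b d ⟨k, h1, a, ha⟩ ⟨l, h2, e, he⟩
    obtain ⟨x, hx⟩ := ((hΦ k _ h1).2.2.2.2 _ (le_max_left k l)).1
    obtain ⟨y, hy⟩ := ((hΦ l _ h2).2.2.2.2 _ (le_max_right k l)).1
    exact ⟨max k l, hT (le_max_left _ _) h1, hT (le_max_right _ _) h2, x + a, y + e,
      by rw [ha, hx, map_add, add_assoc], by rw [he, hy, map_add, add_assoc]⟩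
  let B0 : StarSubalgebra ℂ (Mu A × C) :=
    { carrier := {b | ∃ k, b.2 ∈ T k ∧ ∃ a, b.1 = Φ k b.2 + jj a}
      mul_mem' := fun {b d} hb hd => by
        obtain ⟨k, h1, h2, a, e, ha, he⟩ := two hb hd
        exact ⟨k, mul_mem h1 h2, (Φ k b.2).fst e + (Φ k d.2).snd a + a * e, by
          rw [Prod.fst_mul, Prod.snd_mul, ((hΦ k _ h1).2.1 _ h2).2, ha, he, map_add, map_add,
            map_mul, ← mul_jj, ← jj_mul]
          noncomm_ring⟩
      add_mem' := fun {b d} hb hd => by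
        obtain ⟨k, h1, h2, a, e, ha, he⟩ := two hb hd
        exact ⟨k, add_mem h1 h2, a + e, by
          rw [Prod.fst_add, Prod.snd_add, ((hΦ k _ h1).2.1 _ h2).1, ha, he, map_add]
          abel⟩
      algebraMap_mem' := fun r => ⟨0, algebraMap_mem _ r, 0, by
        simp [Algebra.algebraMap_eq_smul_one, (hΦ 0 _ (one_mem _)).2.2.1, f0]⟩
      star_mem' := by
        rintro b ⟨k, h1, a, ha⟩
        exact ⟨k, star_mem h1, star a, by
          rw [Prod.fst_star, Prod.snd_star, (hΦ k _ h1).2.2.2.1, ha, star_add, map_star]⟩ }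
  have z0 : ∀ k, Φ k 0 = 0 := fun k => norm_le_zero_iff.1 (by simpa using (hΦ k 0 (zero_mem _)).1)
  have : IsClosed (B0.topologicalClosure : Set (Mu A × C)) := B0.isClosed_topologicalClosure
  let ι : A →⋆ₙₐ[ℂ] B0.topologicalClosure :=
    { toFun := fun a => ⟨(jj a, 0), B0.le_topologicalClosure ⟨0, zero_mem _, a, by simp [z0]⟩⟩
      map_smul' := fun c a => Subtype.ext (Prod.ext (map_smul jj c a) (smul_zero c).symm)
      map_zero' := Subtype.ext (Prod.ext (map_zero jj) rfl)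
      map_add' := fun a b => Subtype.ext (Prod.ext (map_add jj a b) (add_zero _).symm)
      map_mul' := fun a b => Subtype.ext (Prod.ext (map_mul jj a b) (mul_zero _).symm)
      map_star' := fun a => Subtype.ext (Prod.ext (map_star jj a) (star_zero _).symm) }
  let π : B0.topologicalClosure →⋆ₐ[ℂ] C :=
    (StarAlgHom.snd ℂ (Mu A) C).comp (StarSubalgebra.subtype _)
  have p1 : ∀ b, π b = b.1.2 := fun _ => rfl
  have ap : ∀ (b : B0.topologicalClosure) (ε : ℝ), 0 < ε → ∃ k c a, c ∈ T k ∧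
      ‖b.1.1 - (Φ k c + jj a)‖ < ε ∧ ‖b.1.2 - c‖ < ε := fun b ε hε => by
    obtain ⟨d, ⟨k, h1, a, ha⟩, h⟩ := Metric.mem_closure_iff.1 b.2 ε hε
    rw [dist_eq_norm, Prod.norm_def, max_lt_iff] at h
    exact ⟨k, d.2, a, h1, ha ▸ h.1, h.2⟩
  have iso := NonUnitalStarAlgHom.isometry (jj (A := A)) jj_inj
  have ker : ∀ b, π b = 0 → b ∈ Set.range ι := fun b hb => by
    obtain ⟨a, ha⟩ := iso.isClosedEmbedding.isClosed_range.closure_subset
      (Metric.mem_closure_iff.2 fun ε hε => by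
        obtain ⟨k, c, a, h1, h2, h3⟩ := ap b _ (half_pos hε)
        refine ⟨_, ⟨a, rfl⟩, ?_⟩
        have := norm_add_le (b.1.1 - (Φ k c + jj a)) (Φ k c)
        rw [← p1, hb, zero_sub, norm_neg] at h3
        rw [dist_eq_norm, show b.1.1 - jj a = b.1.1 - (Φ k c + jj a) + Φ k c by abel]
        linarith [(hΦ k c h1).1] : b.1.1 ∈ closure (Set.range (jj (A := A))))
    exact ⟨a, Subtype.ext (Prod.ext ha hb.symm)⟩
  have nπ : ∀ b, ‖π b‖ ≤ 1 * ‖b‖ := fun b => by simpa using NonUnitalStarAlgHom.norm_apply_le π b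
  refine ⟨B0.topologicalClosure, inferInstance, ι, π, fun a b h => jj_inj
    (congrArg (·.1.1) h), fun c => ?_, Set.ext fun b => ⟨by rintro ⟨a, rfl⟩; rfl, ker b⟩,
    fun I hI => or_iff_not_imp_right.2 fun hc => ?_⟩
  · let K : AddSubgroup C :=
      { carrier := ⋃ n, T n
        add_mem' := fun {x y} hx hy => by
          obtain ⟨k, hk⟩ := Set.mem_iUnion.1 hx
          obtain ⟨l, hl⟩ := Set.mem_iUnion.1 hy
          exact Set.mem_iUnion.2 ⟨max k l, add_mem (hT (le_max_left _ _) hk)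
            (hT (le_max_right _ _) hl)⟩
        zero_mem' := Set.mem_iUnion.2 ⟨0, zero_mem _⟩
        neg_mem' := fun {x} hx => (Set.mem_iUnion.1 hx).elim fun k hk =>
          Set.mem_iUnion.2 ⟨k, neg_mem hk⟩ }
    obtain ⟨g, hg, -⟩ := controlled_closure_of_complete (K := K)
      (f := (π : B0.topologicalClosure →+ C).mkNormedAddGroupHom 1 nπ) one_pos one_pos
      (fun x hx => (Set.mem_iUnion.1 hx).elim fun k hk => ⟨⟨(Φ k x, x),
        B0.le_topologicalClosure ⟨k, hk, 0, by simp⟩⟩, rfl, by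
          simpa [Prod.norm_def] using (hΦ k x hk).1⟩) c (hd c)
    exact ⟨g, hg⟩
  · obtain ⟨b, hb, b0⟩ := Set.not_subset.1 hc
    have d0 : 0 < ‖π b‖ / 4 := div_pos (norm_pos_iff.2 fun e => b0 (ker b e)) four_pos
    obtain ⟨k, c, a, h1, h2, h3⟩ := ap b _ d0
    let J : TwoSidedIdeal A := .mk' {a | ι a ∈ I} (by simp)
      (fun h h' => by simpa using I.add_mem h h') (fun h => by simpa using I.neg_mem h)
      (fun h => by simpa using I.mul_mem_left _ _ h) fun h => by simpa using I.mul_mem_right _ _ h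
    have j1 : ∀ a, a ∈ J ↔ ι a ∈ I := fun a => TwoSidedIdeal.mem_mk' ..
    have st : ∀ l, star (φ l 1) = φ l 1 := fun l => by rw [← map_star, star_one]
    have t1 : Tendsto (fun n => a * ∑ l ∈ range n, φ l 1) atTop (𝓝 a) := by
      simpa [star_sum, st] using (au (star a)).star
    have t2 : Tendsto (fun n => ‖a * φ n 1‖) atTop (𝓝 0) := by
      simpa [sum_range_succ, mul_add] using (((tendsto_add_atTop_iff_nat 1).2 t1).sub t1).norm
    rintro _ ⟨x, rfl⟩
    refine (j1 x).1 (fu J ?_ (((t2.eventually (gt_mem_nhds d0)).and (eventually_ge_atTop k)).mono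
      fun l hl => ?_) x)
    · rw [show (J : Set A) = ι ⁻¹' I from Set.ext j1]
      exact hI.preimage (AddMonoidHomClass.continuous_of_bound ι 1 fun a => by
        simpa using NonUnitalStarAlgHom.norm_apply_le ι a)
    · simp only [j1]
      refine ptrick (ι.comp (φ l)) I hI (x := ⟨c, hT hl.2 h1⟩)
        (I.mul_mem_right b (ι (φ l 1)) hb) ?_
      have e1 := ((hΦ k c h1).2.2.2.2 l hl.2).2 (hT hl.2 h1)
      have e2 : ‖jj (φ l 1)‖ ≤ 1 := prj (by rw [← map_star, st]) (by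
        rw [← map_mul, ← map_mul, one_mul])
      have e3 := norm_mul_le (b.1.1 - (Φ k c + jj a)) (jj (φ l 1))
      have e4 := norm_add_le ((b.1.1 - (Φ k c + jj a)) * jj (φ l 1)) (jj (a * φ l 1))
      have e5 := norm_add_le (b.1.2 - c) c
      rw [sub_add_cancel, ← p1] at e5
      rw [← p1] at h3
      rw [iso.norm_map_of_map_zero (map_zero _), sub_mul, add_mul, e1, map_mul, sub_add_eq_sub_sub,
        sub_add_cancel, ← sub_add_eq_sub_sub, ← e1, ← add_mul, ← sub_mul, ← sub_mul] at e4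
      change ‖((jj (φ l ⟨c, hT hl.2 h1⟩), (0 : C)) - b.1 * (jj (φ l 1), 0))‖ < ‖c‖
      rw [norm_sub_rev, Prod.norm_def, ← e1]
      simp only [Prod.fst_sub, Prod.fst_mul, Prod.snd_sub, Prod.snd_mul, mul_zero, sub_zero,
        norm_zero, ← sub_mul]
      refine max_lt ?_ ?_ <;> nlinarith [hl.1, norm_nonneg (b.1.1 - (Φ k c + jj a))]

theorem main (A : Type) [NonUnitalCStarAlgebra A] (C : Type) [CStarAlgebra C] [Nontrivial C]
    (hA : ∃ S : ℕ → NonUnitalStarSubalgebra ℂ A, Monotone S ∧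
          (∀ n, FiniteDimensional ℂ (Submodule.span ℂ (S n : Set A))) ∧
          Dense (⋃ n, (S n : Set A)))
    (hC : ∃ S : ℕ → NonUnitalStarSubalgebra ℂ C, Monotone S ∧
          (∀ n, FiniteDimensional ℂ (Submodule.span ℂ (S n : Set C))) ∧
          Dense (⋃ n, (S n : Set C)))
    (h : ∀ (D : Type) [CStarAlgebra D], Nontrivial D →
          ∀ φ : A →⋆ₙₐ[ℂ] D, ¬ Function.Surjective φ) :
    ∃ (B : Type) (_ : CStarAlgebra B) (ι : A →⋆ₙₐ[ℂ] B) (π : B →⋆ₐ[ℂ] C),
        Function.Injective ι ∧ Function.Surjective π ∧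
        Set.range ι = {b : B | π b = 0} ∧
        ∀ I : TwoSidedIdeal B, IsClosed (I : Set B) →
          Set.range ι ⊆ (I : Set B) ∨ (I : Set B) ⊆ Set.range ι := by
  obtain ⟨S, s1, s2, s3⟩ := hA
  obtain ⟨R, r1, r2, r3⟩ := hC
  have : ∀ n, FiniteDimensional ℂ (S n) := fun n => by
    have := s2 n
    rw [show Submodule.span ℂ (S n : Set A) = (S n).toSubmodule from
      Submodule.span_eq (S n).toSubmodule] at this
    exact this
  let T : ℕ → StarSubalgebra ℂ C := fun n => StarAlgebra.adjoin ℂ (R n)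
  have fd : ∀ n, FiniteDimensional ℂ (T n).toSubalgebra.toSubmodule := fun n => by
    have := r2 n
    rw [show Submodule.span ℂ (R n : Set C) = (R n).toSubmodule from
      Submodule.span_eq (R n).toSubmodule] at this
    rw [StarAlgebra.adjoin_nonUnitalStarSubalgebra_eq_span]
    infer_instance
  have : ∀ n, FiniteDimensional ℂ (T n) := fd
  have : ∀ n, IsClosed (T n : Set C) := fun n =>
    have := fd n
    (T n).toSubalgebra.toSubmodule.closed_of_finiteDimensional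
  obtain ⟨φ, p1, p2, p3⟩ := data h S s1 s3 fun n => T n
  exact build T (fun a b e => StarAlgebra.adjoin_mono (r1 e))
    (r3.mono (Set.iUnion_mono fun n => StarAlgebra.subset_adjoin ℂ _)) φ p1 p2 p3

end Pool.Agent.H.MP_2001a4_an
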